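import Pool.Agent.Results.MP_542436_nt.AllBoxes

/-!
# One divisor: power saving
-/

set_option autoImplicit false

namespace Pool.Agent.K9h83.VN

open NumberField IsDedekindDomain Height
open Pool.Agent.Results.MP_542436_nt.AllBoxes
open Pool.Agent.N753.SU Pool.Agent.N753.LS Pool.Agent.H691R3 Pool.Agent.N445.UB

/-- the three inequalities at the point `x` -/
def Ineq {K : Type} [Field K] [NumberField K] {r : ℕ} (S : Set (HeightOneSpectrum (𝓞 K)))
    (F : Fin r → MvPolynomial (Fin 2) K) (I : Finset (Fin 2)) (ε C : ℝ) (x : Fin 2 → K) : Prop :=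
  ∑ j, weight (F j) x + ∑ i ∈ I, logHeight₁ (x i) -
      ε * (logHeight₁ (x 0) + logHeight₁ (x 1)) ≤ counting S F I x + C ∧
    ((∀ j, Small (F j)) →
      ∑ i, ((degree F I i : ℝ) - ε) * logHeight₁ (x i) ≤ counting S F I x + C) ∧
    ((∃ k, Six (F k) ∧ ∀ j, j ≠ k → Small (F j)) →
      ∑ i, ((degree F I i : ℝ) - 2 - ε) * logHeight₁ (x i) ≤ counting S F I x + C)

theorem box_fin (K : Type) [Field K] [NumberField K] (B B' : ℝ) :
    {x : Fin 2 → K | logHeight₁ (x 0) ≤ B ∧ logHeight₁ (x 1) ≤ B'}.Finite := by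
  have h : {x : Fin 2 → K | logHeight₁ (x 0) ≤ B ∧ logHeight₁ (x 1) ≤ B'} = bx2 K B B' := by
    ext x
    unfold bx2
    simp only [hr_aff]
  rw [h]
  exact bx2_fin B B'

/-- the set `E` has a power saving in all boxes -/
def PS {K : Type} [Field K] [NumberField K] (E : Set (Fin 2 → K)) (ν C : ℝ) : Prop :=
  ∀ H₀ H₁ : ℝ, 0 ≤ H₀ → 0 ≤ H₁ →
    ({x | x ∈ E ∧ logHeight₁ (x 0) ≤ H₀ ∧ logHeight₁ (x 1) ≤ H₁}.ncard : ℝ) ≤
      C * Real.exp (2 * H₀ + 2 * H₁ - ν * max H₀ H₁)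

theorem one_div (K : Type) [Field K] [NumberField K] (r : ℕ) (F : Fin r → MvPolynomial (Fin 2) K)
    (I : Finset (Fin 2)) (hF : ∀ j, Irreducible (F j))
    (hFF : ∀ j k, j ≠ k → ¬ Associated (F j) (F k)) (ε : ℝ) (hε : 0 < ε) :
    ∃ (Z : Finset K) (E : Set (Fin 2 → K)) (ν C₀ : ℝ), 0 < ν ∧ ν ≤ 1 ∧ 0 < C₀ ∧ PS E ν C₀ ∧
      ∀ S : Set (HeightOneSpectrum (𝓞 K)), S.Finite → ∃ C : ℝ, ∀ x : Fin 2 → K, x ∉ E →
        x 0 ∉ Z → x 1 ∉ Z → (∀ j, MvPolynomial.eval x (F j) ≠ 0) → Ineq S F I ε C x := by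
  classical
  set κ := min ε 1 with hκ
  have hκ0 : 0 < κ := lt_min hε one_pos
  have hκε : κ ≤ ε := min_le_left _ _
  have hh : ∀ z : K, hr (aff z) = logHeight₁ z := fun z => hr_aff z
  obtain ⟨Z, ν, C₀, hν, hν1, hC₀, hbox⟩ := box_exc tools F I hF hFF hκ0 (min_le_right _ _)
  refine ⟨Z, {x : Fin 2 → K | x 0 ∉ Z ∧ x 1 ∉ Z ∧ x ∈ Ex2 F I κ}, ν, C₀, hν, hν1, hC₀, ?_, ?_⟩
  · intro H₀ H₁ h0 h1
    set T := {x : Fin 2 → K | x ∈ {x : Fin 2 → K | x 0 ∉ Z ∧ x 1 ∉ Z ∧ x ∈ Ex2 F I κ} ∧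
      logHeight₁ (x 0) ≤ H₀ ∧ logHeight₁ (x 1) ≤ H₁} with hT
    have hfin : T.Finite := (box_fin K H₀ H₁).subset fun x hx => hx.2
    rw [Set.ncard_eq_toFinset_card T hfin]
    refine hbox H₀ H₁ h0 h1 _ fun x hx => ?_
    rw [Set.Finite.mem_toFinset] at hx
    rw [hh, hh]
    exact hx
  · intro S hS
    have hF0 : ∀ j, F j ≠ 0 := fun j => (hF j).ne_zero
    have hcount : ∀ x, counting S F I x = cnt1 S F I x := fun x => rfl
    obtain ⟨C1, hC1, h1⟩ := cnt1_ge hS F hF0 I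
    refine ⟨C1, ?_⟩
    intro x hxE hx0 hx1 hx
    have hs : 0 ≤ logHeight₁ (x 0) := zero_le_logHeight₁ _
    have ht : 0 ≤ logHeight₁ (x 1) := zero_le_logHeight₁ _
    have hm : htm x ≤ logHeight₁ (x 0) + logHeight₁ (x 1) := by
      refine htm_le two_pos fun i => ?_
      fin_cases i
      · exact le_add_of_nonneg_right ht
      · exact le_add_of_nonneg_left hs
    have hεm := mul_le_mul_of_nonneg_left hm hκ0.le
    have hεm' := mul_le_mul_of_nonneg_right hκε
      (show 0 ≤ logHeight₁ (x 0) + logHeight₁ (x 1) by linarith)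
    have hsum := sum_degree F I x
    have hTT := TT_weight F I x
    have hmainx : ∑ j, weight (F j) x + ∑ i ∈ I, logHeight₁ (x i) -
        ε * (logHeight₁ (x 0) + logHeight₁ (x 1)) ≤ counting S F I x + C1 := by
      rw [hcount]
      have h3 : ¬ ∑ v ∈ UU F I x, Real.log (Nv v) < TT F I x - κ * htm x :=
        fun h => hxE ⟨hx0, hx1, hx, h⟩
      have h4 := h1 x hx
      rw [hTT] at h3
      linarith [not_lt.1 h3]
    refine ⟨hmainx, fun hsm => ?_, ?_⟩
    · have h3 : ∑ j, weight (F j) x = ∑ j, ((F j).degreeOf 0 * logHeight₁ (x 0) +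
        (F j).degreeOf 1 * logHeight₁ (x 1)) :=
        Finset.sum_congr rfl fun j _ => weight_small (hsm j) x
      have h4 : ∑ i, ((degree F I i : ℝ) - ε) * logHeight₁ (x i) =
          ∑ i, (degree F I i : ℝ) * logHeight₁ (x i) -
            ε * (logHeight₁ (x 0) + logHeight₁ (x 1)) := by
        rw [Fin.sum_univ_two, Fin.sum_univ_two]
        ring
      rw [h4]
      linarith
    · rintro ⟨k, hk, hsm⟩
      have h3 : ∑ j, ((F j).degreeOf 0 * logHeight₁ (x 0) +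
          (F j).degreeOf 1 * logHeight₁ (x 1)) - 2 * (logHeight₁ (x 0) + logHeight₁ (x 1)) ≤
            ∑ j, weight (F j) x := by
        rw [← Finset.add_sum_erase _ (fun j => ((F j).degreeOf 0 * logHeight₁ (x 0) +
            (F j).degreeOf 1 * logHeight₁ (x 1))) (Finset.mem_univ k),
          ← Finset.add_sum_erase _ (fun j => weight (F j) x) (Finset.mem_univ k)]
        have h5 := weight_six hk x
        have h6 : ∑ j ∈ Finset.univ.erase k, weight (F j) x =
            ∑ j ∈ Finset.univ.erase k, ((F j).degreeOf 0 * logHeight₁ (x 0) +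
              (F j).degreeOf 1 * logHeight₁ (x 1)) :=
          Finset.sum_congr rfl fun j hj => weight_small (hsm j (Finset.ne_of_mem_erase hj)) x
        rw [h6]
        linarith
      have h4 : ∑ i, ((degree F I i : ℝ) - 2 - ε) * logHeight₁ (x i) =
          ∑ i, (degree F I i : ℝ) * logHeight₁ (x i) -
            2 * (logHeight₁ (x 0) + logHeight₁ (x 1)) -
            ε * (logHeight₁ (x 0) + logHeight₁ (x 1)) := by
        rw [Fin.sum_univ_two, Fin.sum_univ_two]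
        ring
      rw [h4]
      linarith

end Pool.Agent.K9h83.VN
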