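import Mathlib

/-!
# Summation over a set of pairs with a power saving in all boxes
-/

set_option autoImplicit false

namespace Pool.Agent.K9h83.VN

open MeasureTheory

/-- The sum over a set `E` with at most `C₀ exp (2 H₀ + 2 H₁ - ν max (H₀, H₁))` elements in the
boxes is finite. -/
theorem tsum_ne_top {T : Type} (h₀ h₁ : T → ℝ) (hh₀ : ∀ x, 0 ≤ h₀ x) (hh₁ : ∀ x, 0 ≤ h₁ x)
    (E : Set T) (ν C₀ : ℝ) (hν : 0 < ν) (hC₀ : 0 < C₀)
    (hfin : ∀ H₀ H₁ : ℝ, {x | h₀ x ≤ H₀ ∧ h₁ x ≤ H₁}.Finite)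
    (hE : ∀ H₀ H₁ : ℝ, 0 ≤ H₀ → 0 ≤ H₁ →
        ({x | x ∈ E ∧ h₀ x ≤ H₀ ∧ h₁ x ≤ H₁}.ncard : ℝ) ≤
          C₀ * Real.exp (2 * H₀ + 2 * H₁ - ν * max H₀ H₁))
    (f : T → ENNReal) (M : ℝ) (hM : 0 ≤ M)
    (hf : ∀ x, f x ≤ ENNReal.ofReal (M * Real.exp (-2 * h₀ x - 2 * h₁ x +
      ν / 2 * max (h₀ x) (h₁ x)))) : ∑' x : E, f x ≠ ⊤ := by
  classical
  let g : E → ℕ × ℕ := fun x => (⌊h₀ x⌋₊, ⌊h₁ x⌋₊)
  let B : ℕ × ℕ → ℝ := fun n => C₀ * Real.exp 4 * M *
    (Real.exp (n.1 * (-(ν / 4))) * Real.exp (n.2 * (-(ν / 4))))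
  have hB : Summable B := by
    refine Summable.mul_left _ ?_
    have hs : Summable fun n : ℕ => Real.exp (n * (-(ν / 4))) :=
      Real.summable_exp_nat_mul_iff.2 (by linarith)
    exact Summable.mul_of_nonneg hs hs (fun _ => (Real.exp_pos _).le)
      (fun _ => (Real.exp_pos _).le)
  have key : ∑' x : E, f x ≤ ∑' n, ENNReal.ofReal (B n) := by
    rw [← (Equiv.sigmaFiberEquiv g).tsum_eq (fun x : E => f x)]
    rw [ENNReal.tsum_sigma' (fun c : (y : ℕ × ℕ) × {x : E // g x = y} =>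
      f ((Equiv.sigmaFiberEquiv g) c))]
    refine ENNReal.tsum_le_tsum fun n => ?_
    have hbox := hE (n.1 + 1) (n.2 + 1) (by positivity) (by positivity)
    set Bx : Set T := {x | x ∈ E ∧ h₀ x ≤ (n.1 : ℝ) + 1 ∧ h₁ x ≤ (n.2 : ℝ) + 1} with hBx
    have hmem : ∀ x : {x : E // g x = n}, (x.1.1 : T) ∈ Bx := by
      intro x
      refine ⟨x.1.2, ?_, ?_⟩
      · have := (Nat.lt_floor_add_one (h₀ x.1)).le
        have h1 : ⌊h₀ x.1⌋₊ = n.1 := congrArg Prod.fst x.2
        rwa [h1] at this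
      · have := (Nat.lt_floor_add_one (h₁ x.1)).le
        have h1 : ⌊h₁ x.1⌋₊ = n.2 := congrArg Prod.snd x.2
        rwa [h1] at this
    have hinj : Function.Injective fun x : {x : E // g x = n} => (⟨x.1.1, hmem x⟩ : Bx) := by
      intro x y hxy
      have : x.1.1 = y.1.1 := by simpa using hxy
      exact Subtype.ext (Subtype.ext this)
    have hfinB : Finite Bx := ((hfin _ _).subset fun x hx => hx.2 : Bx.Finite).to_subtype
    have hfib : Finite {x : E // g x = n} := Finite.of_injective _ hinj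
    have hcard : (Nat.card {x : E // g x = n} : ℝ) ≤ Bx.ncard := by
      have := Nat.card_le_card_of_injective _ hinj
      rw [Nat.card_coe_set_eq] at this
      exact_mod_cast this
    have hft : Fintype {x : E // g x = n} := Fintype.ofFinite _
    set m : ℝ := max (n.1 : ℝ) n.2 with hm
    have hm0 : 0 ≤ m := le_max_of_le_left (by positivity)
    have hterm : ∀ x : {x : E // g x = n}, f ((Equiv.sigmaFiberEquiv g) ⟨n, x⟩) ≤
        ENNReal.ofReal (M * Real.exp (-2 * n.1 - 2 * n.2 + ν / 2 * (m + 1))) := by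
      intro x
      show f x.1 ≤ _
      refine (hf x.1).trans (ENNReal.ofReal_le_ofReal ?_)
      refine mul_le_mul_of_nonneg_left (Real.exp_le_exp.2 ?_) hM
      obtain ⟨-, b1, b2⟩ := hmem x
      have c1 : (n.1 : ℝ) ≤ h₀ x.1 := by
        have h1 : ⌊h₀ x.1⌋₊ = n.1 := congrArg Prod.fst x.2
        rw [← h1]
        exact Nat.floor_le (hh₀ _)
      have c2 : (n.2 : ℝ) ≤ h₁ x.1 := by
        have h1 : ⌊h₁ x.1⌋₊ = n.2 := congrArg Prod.snd x.2
        rw [← h1]
        exact Nat.floor_le (hh₁ _)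
      have c3 : max (h₀ x.1) (h₁ x.1) ≤ m + 1 := by
        refine max_le ?_ ?_
        · have := le_max_left (n.1 : ℝ) n.2
          linarith
        · have := le_max_right (n.1 : ℝ) n.2
          linarith
      have c4 := mul_le_mul_of_nonneg_left c3 (show 0 ≤ ν / 2 by linarith)
      linarith
    calc ∑' x : {x : E // g x = n}, f ((Equiv.sigmaFiberEquiv g) ⟨n, x⟩)
        = ∑ x : {x : E // g x = n}, f ((Equiv.sigmaFiberEquiv g) ⟨n, x⟩) := tsum_fintype _
      _ ≤ ∑ _x : {x : E // g x = n}, ENNReal.ofReal (M * Real.exp (-2 * n.1 - 2 * n.2 +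
          ν / 2 * (m + 1))) := Finset.sum_le_sum fun x _ => hterm x
      _ = ENNReal.ofReal (Nat.card {x : E // g x = n} * (M * Real.exp (-2 * n.1 - 2 * n.2 +
          ν / 2 * (m + 1)))) := by
        rw [Finset.sum_const, Finset.card_univ, nsmul_eq_mul, ← Nat.card_eq_fintype_card,
          ← ENNReal.ofReal_natCast, ← ENNReal.ofReal_mul (Nat.cast_nonneg _)]
      _ ≤ ENNReal.ofReal (B n) := by
        refine ENNReal.ofReal_le_ofReal ?_
        have e1 := hcard.trans hbox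
        have e2 : max ((n.1 : ℝ) + 1) (n.2 + 1) = m + 1 := by rw [hm, max_add_add_right]
        rw [e2] at e1
        refine (mul_le_mul_of_nonneg_right e1 (by positivity)).trans ?_
        have e3 : C₀ * Real.exp (2 * ((n.1 : ℝ) + 1) + 2 * (n.2 + 1) - ν * (m + 1)) *
            (M * Real.exp (-2 * n.1 - 2 * n.2 + ν / 2 * (m + 1))) =
            C₀ * M * Real.exp (4 - ν / 2 * (m + 1)) := by
          rw [show C₀ * Real.exp (2 * ((n.1 : ℝ) + 1) + 2 * (n.2 + 1) - ν * (m + 1)) *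
            (M * Real.exp (-2 * n.1 - 2 * n.2 + ν / 2 * (m + 1))) = C₀ * M *
            (Real.exp (2 * ((n.1 : ℝ) + 1) + 2 * (n.2 + 1) - ν * (m + 1)) *
              Real.exp (-2 * n.1 - 2 * n.2 + ν / 2 * (m + 1))) by ring, ← Real.exp_add]
          congr 2
          ring
        rw [e3]
        show _ ≤ C₀ * Real.exp 4 * M *
          (Real.exp (n.1 * (-(ν / 4))) * Real.exp (n.2 * (-(ν / 4))))
        rw [← Real.exp_add, show C₀ * Real.exp 4 * M * Real.exp (n.1 * (-(ν / 4)) +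
          n.2 * (-(ν / 4))) = C₀ * M * (Real.exp 4 * Real.exp (n.1 * (-(ν / 4)) +
          n.2 * (-(ν / 4)))) by ring, ← Real.exp_add]
        refine mul_le_mul_of_nonneg_left (Real.exp_le_exp.2 ?_) (by positivity)
        have d1 : (n.1 : ℝ) ≤ m := le_max_left _ _
        have d2 : (n.2 : ℝ) ≤ m := le_max_right _ _
        nlinarith
  exact ne_top_of_le_ne_top hB.tsum_ofReal_ne_top key

end Pool.Agent.K9h83.VN
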