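import Pool.Agent.K9h83.VN.One
import Pool.Agent.K9h83.VN.Sum
import Pool.Agent.R559.NP.Near

/-!
# Rectangles around a thin set of pairs: the dimension of the limsup set
-/

set_option autoImplicit false

namespace Pool.Agent.K9h83.VN

open NumberField IsDedekindDomain Height MeasureTheory Metric

/-- Every ball of radius `R` of `X` is covered by at most `M (R / r) ^ s` balls of radius `r ≤ R`
(for the real line `s = 1`, for a completion `K_v` of `K` with the usual absolute value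
`s = [K_v : ℚ_v]`). -/
def Covered (X : Type) [MetricSpace X] (s M : ℝ) : Prop :=
  ∀ (z : X) (R r : ℝ), 0 < r → r ≤ R → ∃ T : Finset X, (T.card : ℝ) ≤ M * (R / r) ^ s ∧
    ∀ y : X, dist z y ≤ R → ∃ t ∈ T, dist t y ≤ r

theorem covered_real : Covered ℝ 1 3 := by
  classical
  intro z R r hr hrR
  have hRr : 1 ≤ R / r := by rwa [le_div_iff₀ hr, one_mul]
  refine ⟨(Finset.range (⌊2 * (R / r)⌋₊ + 1)).image fun k : ℕ => z - R + r * k, ?_, ?_⟩
  · rw [Real.rpow_one]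
    have h1 : (((Finset.range (⌊2 * (R / r)⌋₊ + 1)).image
        fun k : ℕ => z - R + r * k).card : ℝ) ≤ (⌊2 * (R / r)⌋₊ + 1 : ℕ) := by
      have := Finset.card_image_le (s := Finset.range (⌊2 * (R / r)⌋₊ + 1))
        (f := fun k : ℕ => z - R + r * k)
      rw [Finset.card_range] at this
      exact_mod_cast this
    have h2 : (⌊2 * (R / r)⌋₊ : ℝ) ≤ 2 * (R / r) := Nat.floor_le (by linarith)
    push_cast at h1
    linarith
  · intro y hy
    rw [Real.dist_eq, abs_le] at hy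
    have h0 : 0 ≤ (y - z + R) / r := div_nonneg (by linarith [hy.2]) hr.le
    refine ⟨z - R + r * ⌊(y - z + R) / r⌋₊, Finset.mem_image.2 ⟨⌊(y - z + R) / r⌋₊, ?_, rfl⟩, ?_⟩
    · rw [Finset.mem_range, Nat.lt_succ_iff]
      refine Nat.floor_mono ?_
      rw [← mul_div_assoc]
      exact div_le_div_of_nonneg_right (by linarith [hy.1]) hr.le
    · have h1 := Nat.floor_le h0
      have h2 := (Nat.lt_floor_add_one ((y - z + R) / r)).le
      rw [le_div_iff₀ hr] at h1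
      rw [div_le_iff₀ hr] at h2
      rw [Real.dist_eq, abs_le]
      constructor <;> nlinarith

/-- the exponent of the dimension bound for rectangles -/
noncomputable def rect (s₀ s₁ τ₀ τ₁ ν : ℝ) : ℝ :=
  max (max (s₁ + (2 - ν) / τ₀) (s₀ + (2 - ν) / τ₁)) ((2 - ν) / τ₀ + (2 - ν) / τ₁)

theorem expo {s₀ s₁ τ₀ τ₁ ν a b : ℝ} (hτ₀ : 0 < τ₀) (hτ₁ : 0 < τ₁) (ha : 0 ≤ a) (hb : 0 ≤ b) :
    (s₀ + s₁ - rect s₀ s₁ τ₀ τ₁ ν) * max (τ₀ * a) (τ₁ * b) - s₀ * (τ₀ * a) - s₁ * (τ₁ * b) ≤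
      -(2 - ν) * (a + b) := by
  have h1 : s₁ + (2 - ν) / τ₀ ≤ rect s₀ s₁ τ₀ τ₁ ν :=
    (le_max_left _ _).trans (le_max_left _ _)
  have h2 : s₀ + (2 - ν) / τ₁ ≤ rect s₀ s₁ τ₀ τ₁ ν :=
    (le_max_right _ _).trans (le_max_left _ _)
  have h3 : (2 - ν) / τ₀ + (2 - ν) / τ₁ ≤ rect s₀ s₁ τ₀ τ₁ ν := le_max_right _ _
  generalize rect s₀ s₁ τ₀ τ₁ ν = D at h1 h2 h3
  obtain ⟨p, hp⟩ : ∃ p : ℝ, p = τ₀ * a := ⟨_, rfl⟩
  obtain ⟨q, hq⟩ : ∃ q : ℝ, q = τ₁ * b := ⟨_, rfl⟩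
  have hpa : a = p / τ₀ := by rw [hp]; field_simp
  have hqb : b = q / τ₁ := by rw [hq]; field_simp
  have hp0 : 0 ≤ p := by rw [hp]; positivity
  have hq0 : 0 ≤ q := by rw [hq]; positivity
  rw [← hp, ← hq, hpa, hqb]
  have e1 : (2 - ν) * (p / τ₀ + q / τ₁) = p * ((2 - ν) / τ₀) + q * ((2 - ν) / τ₁) := by ring
  generalize (2 - ν) / τ₀ = u at *
  generalize (2 - ν) / τ₁ = w at *
  rcases le_total p q with hpq | hpq
  · rw [max_eq_right hpq]
    have g1 := mul_nonneg (sub_nonneg.2 hpq) (sub_nonneg.2 h2)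
    have g2 := mul_nonneg hp0 (sub_nonneg.2 h3)
    nlinarith
  · rw [max_eq_left hpq]
    have g1 := mul_nonneg (sub_nonneg.2 hpq) (sub_nonneg.2 h1)
    have g2 := mul_nonneg hq0 (sub_nonneg.2 h3)
    nlinarith

variable {K : Type} [Field K] [NumberField K]

theorem countable_pts' (K : Type) [Field K] [NumberField K] : Countable (Fin 2 → K) := by
  rw [← Set.countable_univ_iff]
  have h : (Set.univ : Set (Fin 2 → K)) ⊆
      ⋃ n : ℕ, {x | logHeight₁ (x 0) ≤ (n : ℝ) ∧ logHeight₁ (x 1) ≤ (n : ℝ)} := by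
    intro x _
    obtain ⟨n, hn⟩ := exists_nat_ge (max (logHeight₁ (x 0)) (logHeight₁ (x 1)))
    exact Set.mem_iUnion.2 ⟨n, (le_max_left _ _).trans hn, (le_max_right _ _).trans hn⟩
  refine (Set.countable_iUnion fun n : ℕ => ?_).mono h
  exact (box_fin K (n : ℝ) (n : ℝ)).countable

/-- the dimension of the limsup set of rectangles -/
theorem dim_rect {X₀ X₁ : Type} [MetricSpace X₀] [MetricSpace X₁] {s₀ s₁ M τ₀ τ₁ : ℝ}
    (h₁ : 0 < s₁) (hτ₀ : 0 < τ₀) (hτ₁ : 0 < τ₁) (hc₀ : Covered X₀ s₀ M)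
    (hc₁ : Covered X₁ s₁ M) (φ₀ : K → X₀) (φ₁ : K → X₁) {E : Set (Fin 2 → K)} {ν C₀ : ℝ}
    (hν : 0 < ν) (hν1 : ν ≤ 1) (hC₀ : 0 < C₀) (hE : PS E ν C₀) :
    ∃ N : Set (X₀ × X₁), dimH N ≤ ENNReal.ofReal (rect s₀ s₁ τ₀ τ₁ (ν / 4)) ∧
      ∀ ξ : X₀ × X₁, ξ ∉ N → ∀ A : ℝ,
        {x | x ∈ E ∧ dist (φ₀ (x 0)) ξ.1 ≤ A * Real.exp (-τ₀ * logHeight₁ (x 0)) ∧
          dist (φ₁ (x 1)) ξ.2 ≤ A * Real.exp (-τ₁ * logHeight₁ (x 1))}.Finite := by
  classical
  have := countable_pts' K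
  obtain ⟨Q, hQ⟩ : ∃ Q : ℝ, Q = rect s₀ s₁ τ₀ τ₁ (ν / 4) := ⟨_, rfl⟩
  have hQ0 : 0 < Q := by
    have h1 : s₁ + (2 - ν / 4) / τ₀ ≤ Q := by
      rw [hQ]
      exact (le_max_left _ _).trans (le_max_left _ _)
    have h2 : 0 < (2 - ν / 4) / τ₀ := div_pos (by linarith) hτ₀
    linarith
  have hM : 0 ≤ M := by
    obtain ⟨T, hT, -⟩ := hc₀ (φ₀ 0) 1 1 one_pos le_rfl
    rw [div_one, Real.one_rpow, mul_one] at hT
    exact (Nat.cast_nonneg _).trans hT
  refine ⟨⋃ k : ℕ, {ξ : X₀ × X₁ | {x : E |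
    dist (φ₀ (x.1 0)) ξ.1 ≤ ((k : ℝ) + 1) * Real.exp (-τ₀ * logHeight₁ (x.1 0)) ∧
    dist (φ₁ (x.1 1)) ξ.2 ≤ ((k : ℝ) + 1) * Real.exp (-τ₁ * logHeight₁ (x.1 1))}.Infinite},
    ?_, ?_⟩
  · rw [dimH_iUnion]
    refine iSup_le fun k => ?_
    obtain ⟨A, hA⟩ : ∃ A : ℝ, A = (k : ℝ) + 1 := ⟨_, rfl⟩
    rw [← hA]
    have hA0 : 0 < A := by rw [hA]; positivity
    -- the larger of the exponents, and the radius
    let m : (Fin 2 → K) → ℝ := fun x => max (τ₀ * logHeight₁ (x 0)) (τ₁ * logHeight₁ (x 1))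
    let ρ : (Fin 2 → K) → ℝ := fun x => A * Real.exp (-m x)
    have hρ : ∀ x, 0 < ρ x := fun x => mul_pos hA0 (Real.exp_pos _)
    have hρ₀ : ∀ x, ρ x ≤ A * Real.exp (-τ₀ * logHeight₁ (x 0)) := fun x => by
      refine mul_le_mul_of_nonneg_left (Real.exp_le_exp.2 ?_) hA0.le
      have : τ₀ * logHeight₁ (x 0) ≤ m x := le_max_left _ _
      linarith
    have hρ₁ : ∀ x, ρ x ≤ A * Real.exp (-τ₁ * logHeight₁ (x 1)) := fun x => by
      refine mul_le_mul_of_nonneg_left (Real.exp_le_exp.2 ?_) hA0.le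
      have : τ₁ * logHeight₁ (x 1) ≤ m x := le_max_right _ _
      linarith
    have hT₀ := fun x : Fin 2 → K => hc₀ (φ₀ (x 0)) (A * Real.exp (-τ₀ * logHeight₁ (x 0))) (ρ x)
      (hρ x) (hρ₀ x)
    have hT₁ := fun x : Fin 2 → K => hc₁ (φ₁ (x 1)) (A * Real.exp (-τ₁ * logHeight₁ (x 1))) (ρ x)
      (hρ x) (hρ₁ x)
    choose T₀ hcard₀ hcov₀ using hT₀
    choose T₁ hcard₁ hcov₁ using hT₁
    have hq₀ : ∀ x, A * Real.exp (-τ₀ * logHeight₁ (x 0)) / ρ x =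
        Real.exp (m x - τ₀ * logHeight₁ (x 0)) := fun x => by
      show A * Real.exp (-τ₀ * logHeight₁ (x 0)) / (A * Real.exp (-m x)) = _
      rw [mul_div_mul_left _ _ hA0.ne', ← Real.exp_sub]
      congr 1
      ring
    have hq₁ : ∀ x, A * Real.exp (-τ₁ * logHeight₁ (x 1)) / ρ x =
        Real.exp (m x - τ₁ * logHeight₁ (x 1)) := fun x => by
      show A * Real.exp (-τ₁ * logHeight₁ (x 1)) / (A * Real.exp (-m x)) = _
      rw [mul_div_mul_left _ _ hA0.ne', ← Real.exp_sub]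
      congr 1
      ring
    -- the sets
    let ι := Σ x : E, (T₀ x.1 × T₁ x.1)
    let U : ι → Set (X₀ × X₁) := fun i => closedBall (i.2.1.1, i.2.2.1) (ρ i.1.1)
    let d : ι → ℝ := fun i => 2 * ρ i.1.1
    have hd : ∀ i, 0 < d i := fun i => mul_pos two_pos (hρ _)
    have hU : ∀ i, Metric.ediam (U i) ≤ ENNReal.ofReal (d i) := by
      intro i
      refine Metric.ediam_le fun a ha b hb => ?_
      rw [Metric.mem_closedBall] at ha hb
      rw [edist_dist]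
      apply ENNReal.ofReal_le_ofReal
      have := dist_triangle_right a b (i.2.1.1, i.2.2.1)
      show dist a b ≤ 2 * ρ i.1.1
      linarith
    have hsumE : ∑' x : E, ENNReal.ofReal ((T₀ x.1).card * (T₁ x.1).card * (2 * ρ x.1) ^ Q) ≠
        ⊤ := by
      refine tsum_ne_top (T := Fin 2 → K) (fun x => logHeight₁ (x 0)) (fun x => logHeight₁ (x 1))
        (fun _ => zero_le_logHeight₁ _) (fun _ => zero_le_logHeight₁ _) E ν C₀ hν hC₀
        (fun H₀ H₁ => box_fin K H₀ H₁) hE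
        (fun x => ENNReal.ofReal ((T₀ x).card * (T₁ x).card * (2 * ρ x) ^ Q))
        (M * M * (2 * A) ^ Q) (by positivity) fun x => ?_
      refine ENNReal.ofReal_le_ofReal ?_
      have e0 : 0 ≤ logHeight₁ (x 0) := zero_le_logHeight₁ _
      have e1 : 0 ≤ logHeight₁ (x 1) := zero_le_logHeight₁ _
      have c0 := hcard₀ x
      have c1 := hcard₁ x
      rw [hq₀, ← Real.exp_mul] at c0
      rw [hq₁, ← Real.exp_mul] at c1
      have hρQ : (2 * ρ x) ^ Q = (2 * A) ^ Q * Real.exp (-m x * Q) := by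
        show (2 * (A * Real.exp (-m x))) ^ Q = _
        rw [← mul_assoc, Real.mul_rpow (by positivity) (Real.exp_pos _).le, ← Real.exp_mul]
      rw [hρQ]
      have hcc : ((T₀ x).card : ℝ) * (T₁ x).card ≤
          (M * Real.exp ((m x - τ₀ * logHeight₁ (x 0)) * s₀)) *
            (M * Real.exp ((m x - τ₁ * logHeight₁ (x 1)) * s₁)) :=
        mul_le_mul c0 c1 (Nat.cast_nonneg _) (by positivity)
      refine (mul_le_mul_of_nonneg_right hcc (by positivity)).trans ?_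
      have e2 : (M * Real.exp ((m x - τ₀ * logHeight₁ (x 0)) * s₀)) *
            (M * Real.exp ((m x - τ₁ * logHeight₁ (x 1)) * s₁)) *
            ((2 * A) ^ Q * Real.exp (-m x * Q)) =
          M * M * (2 * A) ^ Q * (Real.exp ((m x - τ₀ * logHeight₁ (x 0)) * s₀) *
            Real.exp ((m x - τ₁ * logHeight₁ (x 1)) * s₁) * Real.exp (-m x * Q)) := by ring
      rw [e2, ← Real.exp_add, ← Real.exp_add]
      refine mul_le_mul_of_nonneg_left (Real.exp_le_exp.2 ?_) (by positivity)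
      have e3 := expo (s₀ := s₀) (s₁ := s₁) (ν := ν / 4) hτ₀ hτ₁ e0 e1
      rw [← hQ] at e3
      have e4 : (logHeight₁ (x 0) + logHeight₁ (x 1)) / 2 ≤
          max (logHeight₁ (x 0)) (logHeight₁ (x 1)) := by
        have := le_max_left (logHeight₁ (x 0)) (logHeight₁ (x 1))
        have := le_max_right (logHeight₁ (x 0)) (logHeight₁ (x 1))
        linarith
      have e5 := mul_le_mul_of_nonneg_left e4 (show 0 ≤ ν / 2 by linarith)
      have e6 : (s₀ + s₁ - Q) * m x - s₀ * (τ₀ * logHeight₁ (x 0)) -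
          s₁ * (τ₁ * logHeight₁ (x 1)) ≤ -(2 - ν / 4) * (logHeight₁ (x 0) + logHeight₁ (x 1)) := e3
      nlinarith
    have hsum : Summable fun i => d i ^ Q := by
      have hι : ∑' i : ι, ENNReal.ofReal (d i ^ Q) ≠ ⊤ := by
        rw [ENNReal.tsum_sigma' (fun i : ι => ENNReal.ofReal (d i ^ Q))]
        refine ne_top_of_le_ne_top hsumE (ENNReal.tsum_le_tsum fun x => ?_)
        rw [tsum_fintype]
        show ∑ _b : (T₀ x.1 × T₁ x.1), ENNReal.ofReal ((2 * ρ x.1) ^ Q) ≤ _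
        rw [Finset.sum_const, Finset.card_univ, Fintype.card_prod, Fintype.card_coe,
          Fintype.card_coe, nsmul_eq_mul, ← ENNReal.ofReal_natCast, ← ENNReal.ofReal_mul
          (Nat.cast_nonneg _), Nat.cast_mul]
      have := ENNReal.summable_toReal hι
      refine this.congr fun i => ?_
      rw [ENNReal.toReal_ofReal (Real.rpow_nonneg (hd i).le _)]
    rw [← hQ]
    refine le_trans (dimH_mono ?_) (Pool.Agent.R425.MK.dimH_limsup U d hd hU hQ0 hsum)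
    intro ξ hξ
    simp only [Set.mem_ofPred_eq] at hξ ⊢
    refine Set.Infinite.of_image (Sigma.fst : ι → E) (hξ.mono ?_)
    rintro x ⟨hx0, hx1⟩
    obtain ⟨t₀, ht₀, hd₀⟩ := hcov₀ x.1 ξ.1 hx0
    obtain ⟨t₁, ht₁, hd₁⟩ := hcov₁ x.1 ξ.2 hx1
    refine ⟨⟨x, ⟨t₀, ht₀⟩, ⟨t₁, ht₁⟩⟩, ?_, rfl⟩
    show ξ ∈ closedBall (t₀, t₁) (ρ x.1)
    rw [mem_closedBall', Prod.dist_eq]
    exact max_le hd₀ hd₁
  · intro ξ hξ A
    obtain ⟨k, hk⟩ := exists_nat_ge A
    rw [Set.mem_iUnion] at hξ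
    push Not at hξ
    have h := hξ k
    rw [Set.mem_ofPred_eq, Set.not_infinite] at h
    refine (h.image Subtype.val).subset ?_
    rintro x ⟨hxE, hx0, hx1⟩
    refine ⟨⟨x, hxE⟩, ⟨?_, ?_⟩, rfl⟩
    · exact hx0.trans (mul_le_mul_of_nonneg_right (by linarith) (Real.exp_pos _).le)
    · exact hx1.trans (mul_le_mul_of_nonneg_right (by linarith) (Real.exp_pos _).le)

/-- the dimension of the limsup set of balls of radius `exp (-τ max (h(x_0), h(x_1)))` -/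
theorem dim_cube {X : Type} [MetricSpace X] (φ : (Fin 2 → K) → X) {τ : ℝ} (hτ : 0 < τ)
    {E : Set (Fin 2 → K)} {ν C₀ : ℝ} (hν1 : ν ≤ 1) (hC₀ : 0 < C₀) (hE : PS E ν C₀) :
    ∃ N : Set X, dimH N ≤ ENNReal.ofReal ((4 - ν) / τ) ∧ ∀ ξ : X, ξ ∉ N → ∀ A : ℝ,
      {x | x ∈ E ∧ dist (φ x) ξ ≤
        A * Real.exp (-τ * max (logHeight₁ (x 0)) (logHeight₁ (x 1)))}.Finite := by
  have := countable_pts' K
  obtain ⟨N, hN, hN'⟩ := Pool.Agent.R559.NP.near_dim (T := Fin 2 → K) (X := X)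
    (H := fun x => Real.exp (max (logHeight₁ (x 0)) (logHeight₁ (x 1))))
    (fun x => Real.one_le_exp (le_max_of_le_left (zero_le_logHeight₁ _)))
    (Bad := fun x => x ∈ E) (s := 4 - ν) (τ := τ) (by linarith) hτ
    (by
      intro ε hε
      refine ⟨C₀, fun B hB => ?_⟩
      have hB0 : 0 < B := by linarith
      have hset : {x : Fin 2 → K | x ∈ E ∧
          Real.exp (max (logHeight₁ (x 0)) (logHeight₁ (x 1))) ≤ B} =
          {x | x ∈ E ∧ logHeight₁ (x 0) ≤ Real.log B ∧ logHeight₁ (x 1) ≤ Real.log B} := by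
        ext x
        simp only [Set.mem_ofPred_eq]
        rw [← Real.le_log_iff_exp_le hB0, max_le_iff]
      rw [hset]
      have hL : 0 ≤ Real.log B := Real.log_nonneg hB
      refine ⟨(box_fin K _ _).subset fun x hx => hx.2, (hE _ _ hL hL).trans ?_⟩
      refine mul_le_mul_of_nonneg_left ?_ hC₀.le
      rw [max_self, Real.rpow_def_of_pos hB0]
      refine Real.exp_le_exp.2 ?_
      nlinarith [mul_nonneg hε.le hL]) φ
  refine ⟨N, hN, fun ξ hξ A => ?_⟩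
  refine (hN' ξ hξ A).subset ?_
  rintro x ⟨h1, h2⟩
  refine ⟨?_, h1⟩
  rw [← Real.exp_mul]
  rwa [mul_comm (max (logHeight₁ (x 0)) (logHeight₁ (x 1))) (-τ)]

end Pool.Agent.K9h83.VN
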